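import Pool.Agent.N696.LI.Stm

set_option autoImplicit false

/-!
# Part NOOP: there is no open orbit
-/

namespace Pool.Agent.N353.LI

open Topology Filter
open Pool.Agent.N696.LI

/-- the points with a bounded denominator are discrete and closed, and so are all sets of such
points -/
theorem closed_of_int {m : ℕ} (N : ℕ) (hN : 0 < N) (S : Set (Fin m → ℝ))
    (hS : ∀ y ∈ S, ∀ i, ∃ z : ℤ, (N : ℝ) * y i = z) : IsClosed S := by
  have hN' : (0 : ℝ) < N := by exact_mod_cast hN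
  apply Metric.isClosed_of_pairwise_le_dist (ε := (1 : ℝ) / N) (by positivity)
  intro x hx y hy hxy
  obtain ⟨i, hi⟩ := Function.ne_iff.1 hxy
  obtain ⟨a, ha⟩ := hS x hx i
  obtain ⟨b, hb⟩ := hS y hy i
  have hab : a ≠ b := by
    intro h
    apply hi
    have h1 : (N : ℝ) * x i = N * y i := by rw [ha, hb, h]
    exact mul_left_cancel₀ hN'.ne' h1
  have h1 : (1 : ℤ) ≤ |a - b| := Int.one_le_abs (sub_ne_zero.2 hab)
  have h2 : (1 : ℝ) ≤ |(a : ℝ) - b| := by exact_mod_cast h1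
  rw [← ha, ← hb, ← mul_sub, abs_mul, abs_of_pos hN'] at h2
  have h3 : |x i - y i| ≤ dist x y := by
    rw [← Real.dist_eq]
    exact dist_le_pi_dist x y i
  rw [div_le_iff₀ hN']
  calc (1 : ℝ) ≤ N * |x i - y i| := h2
    _ ≤ N * dist x y := by gcongr
    _ = dist x y * N := mul_comm _ _

theorem units_mulVec {m : ℕ} (g : (Mat m)ˣ) (x : Fin m → ℝ) :
    ((g⁻¹ : (Mat m)ˣ) : Mat m).mulVec ((g : Mat m).mulVec x) = x := by
  rw [Matrix.mulVec_mulVec, Units.inv_mul, Matrix.one_mulVec]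

theorem units_mulVec' {m : ℕ} (g : (Mat m)ˣ) (x : Fin m → ℝ) :
    (g : Mat m).mulVec (((g⁻¹ : (Mat m)ˣ) : Mat m).mulVec x) = x := by
  rw [Matrix.mulVec_mulVec, Units.mul_inv, Matrix.one_mulVec]

theorem noop (hopen : S_open) : S_noop := by
  intro m F _ _ _ D G Γ hG hm ν hsurj
  obtain ⟨K, hK, hKG, hcoc⟩ := hG.cocompact
  let O : Set (Fin m → ℝ) := {y | ∃ g ∈ G, y = (g : Mat m).mulVec ν}
  have hO : IsOpen O := by
    rw [isOpen_iff_mem_nhds]
    rintro y ⟨g, hg, rfl⟩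
    have h1 : ∀ y, ∃ X, y = (D X).mulVec ((g : Mat m).mulVec ν) := by
      intro y
      obtain ⟨X, hX⟩ := hsurj (((g⁻¹ : (Mat m)ˣ) : Mat m).mulVec y)
      obtain ⟨Y, hY⟩ := hG.conj g hg X
      refine ⟨Y, ?_⟩
      rw [hY, Matrix.mulVec_mulVec, mul_assoc, Units.inv_mul, mul_one, ← Matrix.mulVec_mulVec,
        ← hX, units_mulVec']
    refine mem_of_superset (hopen m F D _ h1 Set.univ univ_mem) ?_
    rintro y ⟨X, -, rfl⟩
    obtain ⟨h, hh, hX⟩ := hG.exp_mem X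
    refine ⟨h * g, G.mul_mem hh hg, ?_⟩
    rw [← hX, Matrix.mulVec_mulVec, Units.val_mul]
  have hne : O.Nonempty := ⟨ν, 1, G.one_mem, by rw [Units.val_one, Matrix.one_mulVec]⟩
  -- a rational point
  have hdense : DenseRange (Pi.map (fun _ : Fin m => ((↑) : ℚ → ℝ))) :=
    DenseRange.piMap fun _ => Rat.denseRange_cast
  obtain ⟨q, g0, hg0, hq⟩ := hdense.exists_mem_open hO hne
  have hdvd : ∀ i, (q i).den ∣ ∏ j, (q j).den := fun i => Finset.dvd_prod_of_mem _ (Finset.mem_univ i)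
  have hNpos : 0 < ∏ j, (q j).den := Finset.prod_pos fun j _ => (q j).den_pos
  have hint : ∀ i, ∃ z : ℤ, ((∏ j, (q j).den : ℕ) : ℝ) * (q i : ℝ) = z := by
    intro i
    obtain ⟨c, hc⟩ := hdvd i
    refine ⟨c * (q i).num, ?_⟩
    rw [hc]
    have h1 : ((q i : ℚ) : ℝ) = (q i).num / (q i).den := by
      rw [Rat.cast_def]
    have h2 : ((q i).den : ℝ) ≠ 0 := by exact_mod_cast (q i).den_ne_zero
    rw [h1]
    push_cast
    field_simp
  generalize (∏ j, (q j).den) = N at hNpos hint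
  -- the orbit of the lattice
  let ν0 : Fin m → ℝ := fun i => (q i : ℝ)
  have hν0 : ν0 = (g0 : Mat m).mulVec ν := hq
  let S : Set (Fin m → ℝ) := {y | ∃ γ ∈ Γ, y = (γ : Mat m).mulVec ν0}
  have hS : IsClosed S := by
    apply closed_of_int N hNpos
    rintro y ⟨γ, hγ, rfl⟩ i
    choose z hz using hG.int γ hγ i
    choose w hw using hint
    refine ⟨∑ j, z j * w j, ?_⟩
    simp only [Matrix.mulVec, dotProduct]
    push_cast
    rw [Finset.mul_sum]
    refine Finset.sum_congr rfl fun j _ => ?_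
    rw [hz j, ← hw j]
    simp only [ν0]
    ring
  have hOK : ∀ y ∈ O, ∃ k ∈ K, (k : Mat m).mulVec y ∈ S := by
    rintro y ⟨g, hg, rfl⟩
    have hg' : (g * g0⁻¹)⁻¹ ∈ G := G.inv_mem (G.mul_mem hg (G.inv_mem hg0))
    obtain ⟨γ, hγ, hk⟩ := hcoc _ hg'
    refine ⟨_, hk, γ⁻¹, Γ.inv_mem hγ, ?_⟩
    rw [hν0, Matrix.mulVec_mulVec, Matrix.mulVec_mulVec, ← Units.val_mul, ← Units.val_mul]
    congr 2
    group
  have hclosed : IsClosed O := by
    rw [← closure_subset_iff_isClosed]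
    intro y hy
    obtain ⟨u, hu, huy⟩ := mem_closure_iff_ultrafilter.1 hy
    choose! k hk1 hk2 using hOK
    have h1 : K ∈ u.map k := by
      rw [Ultrafilter.mem_map]
      exact mem_of_superset hu fun z hz => hk1 z hz
    obtain ⟨k0, hk0, hlim⟩ := hK.ultrafilter_le_nhds (u.map k) (le_principal_iff.2 h1)
    have h2 : Tendsto k u (𝓝 k0) := hlim
    have h3 : Tendsto (fun z => ((k z : (Mat m)ˣ) : Mat m).mulVec z) u
        (𝓝 ((k0 : Mat m).mulVec y)) := by
      have h4 : Continuous fun p : (Mat m)ˣ × (Fin m → ℝ) => (p.1 : Mat m).mulVec p.2 :=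
        Continuous.matrix_mulVec (Units.continuous_val.comp continuous_fst) continuous_snd
      exact (h4.tendsto (k0, y)).comp (h2.prodMk_nhds huy)
    have h5 : (k0 : Mat m).mulVec y ∈ S :=
      hS.mem_of_tendsto h3 (mem_of_superset hu fun z hz => hk2 z hz)
    obtain ⟨γ, hγ, h6⟩ := h5
    refine ⟨k0⁻¹ * γ * g0, G.mul_mem (G.mul_mem (G.inv_mem (hKG hk0)) (hG.le hγ)) hg0, ?_⟩
    rw [Units.val_mul, Units.val_mul, ← Matrix.mulVec_mulVec, ← Matrix.mulVec_mulVec, ← hν0, ← h6,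
      units_mulVec]
  have huniv : O = Set.univ := IsClopen.eq_univ ⟨hclosed, hO⟩ hne
  obtain ⟨g, hg, h0⟩ : (0 : Fin m → ℝ) ∈ O := by rw [huniv]; exact Set.mem_univ _
  have h1 : ν = 0 := by
    rw [← units_mulVec g ν, ← h0, Matrix.mulVec_zero]
  obtain ⟨X, hX⟩ := hsurj (fun _ => 1)
  rw [h1, Matrix.mulVec_zero] at hX
  have h2 := congrFun hX ⟨0, hm⟩
  simp at h2

end Pool.Agent.N353.LI
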